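import Pool.Agent.Helper60.StabI.Ind2
import Pool.Agent.Helper82.Stab.GenAux

/-! Casts, shifts and the value of the operators on the classes of monomials. -/

open Topology Filter Set Matrix

noncomputable section

namespace Pool.Agent.Helper60.StabI

open Pool.Agent.Helper1.Stab Pool.Agent.Helper63.Stab

variable {R : Biv} (o : Orient R)

theorem assoc5 {A B C D E F : LC} (a : R.Hom A B) (b : R.Hom B C) (c : R.Hom C D) (d : R.Hom D E)
    (e : R.Hom E F) : R.comp a (R.comp b (R.comp c (R.comp d e))) =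
      R.comp (R.comp a (R.comp b (R.comp c d))) e := by
  simp only [R.assoc]

/-- composition with a class, as a homomorphism -/
def pc {K L M : LC} (f : R.Hom L M) : R.Hom K L →+ R.Hom K M :=
  AddMonoidHom.mk' (fun x => R.comp x f) (fun x y => R.add_comp x y f)

theorem pc_apply {K L M : LC} (f : R.Hom L M) (x : R.Hom K L) : pc f x = R.comp x f := rfl

/-- the cast of coefficients, zero between different degrees -/
def castH {K Z : LC} (d e : ℕ) : R.Hom K ((Cn d).prod Z) →+ R.Hom K ((Cn e).prod Z) :=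
  if h : d = e then pc (R.tens (jh R (cc h)) Z) else 0

theorem castH_eq {K Z : LC} {d e : ℕ} (h : d = e) (x : R.Hom K ((Cn d).prod Z)) :
    castH d e x = R.comp x (R.tens (jh R (cc h)) Z) := by
  rw [castH, dif_pos h]
  rfl

theorem castH_ne {K Z : LC} {d e : ℕ} (h : d ≠ e) (x : R.Hom K ((Cn d).prod Z)) :
    castH d e x = 0 := by
  rw [castH, dif_neg h]
  rfl

theorem castH_self {K Z : LC} (d : ℕ) (x : R.Hom K ((Cn d).prod Z)) : castH d d x = x := by
  rw [castH_eq rfl]
  have h : jh R (cc (rfl : d = d)) = R.J (PMap.id (Cn d)) := jh_id R fun k => rfl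
  rw [h, Pool.Agent.Helper63.Stab.tens_id, R.comp_id]

theorem castH_trans {K Z : LC} {d e : ℕ} (h : d = e) (f : ℕ) (x : R.Hom K ((Cn d).prod Z)) :
    castH e f (castH d e x) = castH d f x := by
  subst h
  rw [castH_self]

/-- `ℂ^(E+j) × Z = ℂ^E × (ℂ^j × Z)` -/
def lom (Z : LC) (j E : ℕ) : (Cn (E + j)).prod Z ≃ₜ (Cn E).prod ((Cn j).prod Z) :=
  ((rho j E).prodCongr (Homeomorph.refl Z) : (Cn (E + j)).prod Z ≃ₜ
    ((Cn E).prod (Cn j)).prod Z).trans (as (Cn E) (Cn j) Z)

/-- the shifted coefficient -/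
def lo {K Z : LC} (j E : ℕ) {D : ℕ} : R.Hom K ((Cn D).prod Z) →+
    R.Hom K ((Cn E).prod ((Cn j).prod Z)) := (pc (jh R (lom Z j E))).comp (castH D (E + j))

theorem lo_apply {K Z : LC} (j E : ℕ) {D : ℕ} (x : R.Hom K ((Cn D).prod Z)) :
    lo j E x = R.comp (castH D (E + j) x) (jh R (lom Z j E)) := rfl

theorem lo_cast {K Z : LC} (j E : ℕ) {D : ℕ} (x : R.Hom K ((Cn D).prod Z)) :
    castH (D - j) E (lo j (D - j) x) = lo j E x := by
  by_cases h : D = E + j
  · have h2 : D - j = E := by omega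
    have h3 : ∀ E', E' = E → castH E' E (lo j E' x) = lo j E x := by
      rintro _ rfl
      rw [castH_self]
    exact h3 _ h2
  · have h1 : lo j E x = 0 := by
      rw [lo_apply, castH_ne h, R.zero_comp]
    by_cases h2 : D - j = E
    · have h3 : D ≠ (D - j) + j := by omega
      rw [lo_apply, castH_ne h3, R.zero_comp, map_zero, h1]
    · rw [castH_ne h2, h1]

/-- `ℂ^(m+i) × Z = ℂ^m × (ℂ^i × Z)` -/
def btm (Z : LC) (m i : ℕ) : (Cn (m + i)).prod Z ≃ₜ (Cn m).prod ((Cn i).prod Z) :=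
  ((CnAdd m i).symm.prodCongr (Homeomorph.refl Z) : (Cn (m + i)).prod Z ≃ₜ
    ((Cn m).prod (Cn i)).prod Z).trans (as (Cn m) (Cn i) Z)

/-- the coefficient with the last `i` coordinates replaced by a point of a projective space -/
def bt (T : Type) [Fintype T] {K Z : LC} (m i : ℕ) : R.Hom K ((Cn (m + i)).prod Z) →+
    R.Hom K ((Cn m).prod ((LC.Pr T 1).prod Z)) :=
  pc (R.comp (jh R (btm Z m i)) (R.ltens (Cn m) (R.tens (o.b T i) Z)))

theorem bt_apply (T : Type) [Fintype T] {K Z : LC} (m i : ℕ) (x : R.Hom K ((Cn (m + i)).prod Z)) :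
    bt o T m i x = R.comp x (R.comp (jh R (btm Z m i)) (R.ltens (Cn m) (R.tens (o.b T i) Z))) := rfl

/-- the operator `E^j` of the tautological line -/
abbrev Ep (T : Type) [Fintype T] (j : ℕ) : R.Hom (LC.Pr T 1) ((LC.Pr T 1).prod (Cn j)) :=
  o.Epow (X := LC.Pr T 1) (fun P => P) continuous_id j

theorem hom_core (Z : LC) (m i j : ℕ) (h : m + (i + j) = (m + i) + j) :
    R.comp (jh R (btm Z m (i + j))) (jh R (hcore (A := Cn m) Z (rho j i))) =
      R.comp (R.comp (R.tens (jh R (cc h)) Z) (jh R (lom Z j (m + i))))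
        (R.tens (jh R (CnAdd m i).symm) ((Cn j).prod Z)) := by
  rw [tens_jh, tens_jh, ← jh_trans, ← jh_trans, ← jh_trans]
  refine jh_congr R fun k => ?_
  obtain ⟨h1, h2, h3⟩ := rho_add m j i h k.1
  refine Prod.ext (Prod.ext ?_ ?_) (Prod.ext ?_ rfl)
  · exact h1.symm
  · exact h2.symm
  · exact h3.symm

/-- the value of the operator on a monomial -/
theorem bt_SC (T : Type) [Fintype T] {K Z P X : LC} {m : ℕ} (e : R.Hom (Cn m) P)
    (s : R.Hom (P.prod (LC.Pr T 1)) X) (i j : ℕ) (hi : i + j < Fintype.card T) (D : ℕ)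
    (x : R.Hom K ((Cn D).prod Z)) :
    R.comp (bt o T m (i + j) (castH D (m + (i + j)) x))
      (R.comp (R.tens e ((LC.Pr T 1).prod Z)) (SC Z (Ep o T j) s)) =
    R.comp (lo j (m + i) x) (R.tens (R.comp (jh R (CnAdd m i).symm) (R.comp (R.tens e (Cn i))
      (R.comp (R.ltens P (o.b T i)) s))) ((Cn j).prod Z)) := by
  have h := core Z e (o.b T (i + j)) (o.b T i) (rho j i) (Ep o T j) s (b_Epow o T j i hi)
  have h0 : m + (i + j) = (m + i) + j := by omega
  rw [bt_apply, R.assoc, R.assoc, h, ← R.assoc (jh R (btm Z m (i + j))), hom_core Z m i j h0,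
    R.tens_comp (jh R (CnAdd m i).symm) (R.comp (R.tens e (Cn i)) _)]
  have h2 : R.comp (castH D (m + (i + j)) x) (R.tens (jh R (cc h0)) Z) =
      castH D ((m + i) + j) x := by
    rw [← castH_eq h0]
    by_cases hD : D = m + (i + j)
    · exact castH_trans hD _ x
    · rw [castH_ne hD, map_zero, castH_ne (by omega)]
  rw [lo_apply]
  simp only [R.assoc]
  rw [← R.assoc (castH D (m + (i + j)) x), h2]

/-- the operator on a class killed by the cap -/
theorem SC_zero {A B V P Q X : LC} (Z : LC) (e : R.Hom A P) (b : R.Hom B Q)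
    (ε : R.Hom Q (Q.prod V)) (s : R.Hom (P.prod Q) X) (hb : R.comp b ε = 0) :
    R.comp (R.ltens A (R.tens b Z)) (R.comp (R.tens e (Q.prod Z)) (SC Z ε s)) = 0 := by
  have h1 : R.comp (R.ltens A (R.tens b Z)) (R.tens e (Q.prod Z)) =
      R.comp (R.tens e (B.prod Z)) (R.ltens P (R.tens b Z)) := (exch' e (R.tens b Z)).symm
  have h2 : R.comp (R.ltens P (R.tens b Z)) (jh R (as P Q Z).symm) =
      R.comp (jh R (as P B Z).symm) (R.tens (R.ltens P b) Z) := ltens_tens_as b Z
  have h3 : R.comp (R.tens (R.ltens P b) Z) (R.tens (R.ltens P ε) Z) = 0 := by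
    have h4 : R.ltens P (0 : R.Hom B (Q.prod V)) = 0 := by
      have h5 := Helper9.Stab.ltens_add R P (0 : R.Hom B (Q.prod V)) 0
      rw [add_zero] at h5
      exact left_eq_add.1 h5
    rw [← R.tens_comp, ← ltens_comp, hb, h4, R.tens_zero]
  rw [SC, R.tens_comp, R.tens_comp, ← R.assoc, h1]
  simp only [R.assoc]
  rw [← R.assoc (R.ltens P (R.tens b Z)), h2]
  simp only [R.assoc]
  rw [← R.assoc (R.tens (R.ltens P b) Z), h3, R.zero_comp, R.comp_zero, R.comp_zero]

theorem bt_SC_zero (T : Type) [Fintype T] {K Z P X : LC} {m : ℕ} (e : R.Hom (Cn m) P)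
    (s : R.Hom (P.prod (LC.Pr T 1)) X) (i j : ℕ) (hi : i < Fintype.card T) (hj : i < j)
    (x : R.Hom K ((Cn (m + i)).prod Z)) :
    R.comp (bt o T m i x) (R.comp (R.tens e ((LC.Pr T 1).prod Z)) (SC Z (Ep o T j) s)) = 0 := by
  obtain ⟨k, rfl⟩ : ∃ k, j = i + 1 + k := ⟨j - i - 1, by omega⟩
  rw [bt_apply, R.assoc, R.assoc, SC_zero Z e (o.b T i) _ s (b_Epow_zero o T hi k), R.comp_zero,
    R.comp_zero]

/-- naturality of `SC` in the first factor -/
theorem SC_natP {P P₂ Q V X X₂ : LC} (Z : LC) (ε : R.Hom Q (Q.prod V))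
    {s : R.Hom (P.prod Q) X} {s₂ : R.Hom (P₂.prod Q) X₂} (α : R.Hom P P₂) (ξ : R.Hom X X₂)
    (h : R.comp (R.tens α Q) s₂ = R.comp s ξ) :
    R.comp (R.tens α (Q.prod Z)) (SC Z ε s₂) = R.comp (SC Z ε s) (R.tens ξ (V.prod Z)) := by
  have h1 : R.comp (R.tens α (Q.prod Z)) (jh R (as P₂ Q Z).symm) =
      R.comp (jh R (as P Q Z).symm) (R.tens (R.tens α Q) Z) := Helper82.Stab.tens_ai R α Q Z
  have h2 : R.comp (R.tens α (Q.prod V)) (jh R (as P₂ Q V).symm) =
      R.comp (jh R (as P Q V).symm) (R.tens (R.tens α Q) V) := Helper82.Stab.tens_ai R α Q V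
  have h3 : R.comp (R.tens α Q) (R.comp (R.ltens P₂ ε)
      (R.comp (jh R (as P₂ Q V).symm) (R.tens s₂ V))) =
      R.comp (R.comp (R.ltens P ε) (R.comp (jh R (as P Q V).symm) (R.tens s V)))
        (R.tens ξ V) := by
    rw [← R.assoc, R.exch α ε, R.assoc, ← R.assoc (R.tens α (Q.prod V)), h2, R.assoc,
      ← R.tens_comp, h, R.tens_comp]
    simp only [R.assoc]
  have h4 : R.comp (R.tens (R.tens ξ V) Z) (jh R (as X₂ V Z)) =
      R.comp (jh R (as X V Z)) (R.tens ξ (V.prod Z)) := R.tens_tens ξ V Z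
  rw [SC, SC, ← R.assoc, h1, R.assoc, ← R.assoc (R.tens (R.tens α Q) Z),
    ← R.tens_comp, h3, R.tens_comp]
  simp only [R.assoc]
  rw [h4]

/-! ## Extensions by zero -/

theorem ext_trans {S T U : Type} [Fintype S] [Fintype T] [Fintype U] (j : S ↪ T) (i : T ↪ U)
    {n : ℕ} (P : Pr S n) : Pr.ext (j.trans i) P = Pr.ext i (Pr.ext j P) := by
  refine Helper82.Stab.pr_ext_iff fun a b => ?_
  by_cases ha : ∃ s, i s = a
  · by_cases hb : ∃ s, i s = b
    · obtain ⟨s, rfl⟩ := ha
      obtain ⟨t, rfl⟩ := hb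
      rw [Helper82.Stab.ext_apply]
      by_cases hs : ∃ x, j x = s
      · by_cases ht : ∃ x, j x = t
        · obtain ⟨x, rfl⟩ := hs
          obtain ⟨y, rfl⟩ := ht
          rw [Helper82.Stab.ext_apply]
          exact Helper82.Stab.ext_apply (j.trans i) P x y
        · rw [Helper82.Stab.ext_right j P s (not_exists.1 ht)]
          refine Helper82.Stab.ext_right (j.trans i) P _ fun x hx => ?_
          exact ht ⟨x, i.injective hx⟩
      · rw [Helper82.Stab.ext_left j P (not_exists.1 hs) t]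
        refine Helper82.Stab.ext_left (j.trans i) P (fun x hx => ?_) _
        exact hs ⟨x, i.injective hx⟩
    · rw [Helper82.Stab.ext_right i _ a (not_exists.1 hb)]
      refine Helper82.Stab.ext_right (j.trans i) P _ fun x hx => ?_
      exact hb ⟨j x, hx⟩
  · rw [Helper82.Stab.ext_left i _ (not_exists.1 ha) b]
    refine Helper82.Stab.ext_left (j.trans i) P (fun x hx => ?_) _
    exact ha ⟨j x, hx⟩

theorem J_ext_trans (R : Biv) {S T U : Type} [Fintype S] [Fintype T] [Fintype U] (j : S ↪ T)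
    (i : T ↪ U) (n : ℕ) : R.J (Pr.extM (j.trans i) n) =
      R.comp (R.J (Pr.extM j n)) (R.J (Pr.extM i n)) := by
  rw [← R.J_comp]
  congr 1
  refine PMap.ext fun P => ?_
  exact congrArg (fun z : LC.Pr U n => (z : OnePoint (LC.Pr U n))) (ext_trans j i P)

end Pool.Agent.Helper60.StabI
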