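import Pool.Agent.Helper1.Stab.PR
import Pool.Agent.Helper1.Stab.Comp
import Pool.Agent.Helper63.Stab.CalA

/-! Towards the independence of the monomials: caps of the classes `b_i`. -/

open Topology Filter Set Matrix

noncomputable section

namespace Pool.Agent.Helper60.StabI

open Pool.Agent.Helper1.Stab Pool.Agent.Helper63.Stab

/-! ## Casts -/

/-- the identification of equal powers -/
def cc {i j : ℕ} (h : i = j) : Cn i ≃ₜ Cn j := h ▸ Homeomorph.refl _

theorem cc_rfl {i : ℕ} (h : i = i) (x : Cn i) : cc h x = x := rfl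

theorem cc_cc {i j k : ℕ} (h : i = j) (h' : j = k) (x : Cn i) :
    cc h' (cc h x) = cc (h.trans h') x := by
  subst h
  subst h'
  rfl

theorem cc_succ {i j : ℕ} (h : i + 1 = j + 1) (h' : i = j) (x : Cn (i + 1)) :
    (cc h x : Cn (j + 1)) = ((cc h' x.1, x.2) : (Cn j).prod LC.C) := by
  subst h'
  rfl

theorem CnAdd_cc (m : ℕ) {a b : ℕ} (h : a = b) (h' : m + a = m + b) (v : Cn (m + a)) :
    (CnAdd m b).symm (cc h' v) = (((CnAdd m a).symm v).1, cc h ((CnAdd m a).symm v).2) := by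
  subst h
  rfl

theorem CnAdd_symm_succ (m a : ℕ) (v : Cn (m + (a + 1))) :
    (CnAdd m (a + 1)).symm v =
      (((CnAdd m a).symm (v : (Cn (m + a)).prod LC.C).1).1,
        (((CnAdd m a).symm (v : (Cn (m + a)).prod LC.C).1).2, (v : (Cn (m + a)).prod LC.C).2)) :=
  rfl

/-- reordering `(A × ℂ) × V = A × (V × ℂ)` -/
def ro (A V : LC) : (A.prod LC.C).prod V ≃ₜ A.prod (V.prod LC.C) where
  toFun := fun x => (x.1.1, (x.2, x.1.2))
  invFun := fun x => ((x.1, x.2.2), x.2.1)
  left_inv := fun _ => rfl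
  right_inv := fun _ => rfl
  continuous_toFun := by fun_prop
  continuous_invFun := by fun_prop

/-- `ℂ^(i+j) = ℂ^i × ℂ^j`, the last coordinates in reversed order -/
def rho : ∀ (j i : ℕ), Cn (i + j) ≃ₜ (Cn i).prod (Cn j)
  | 0, i => (Homeomorph.prodPUnit (Cn i)).symm
  | j + 1, i => ((cc (by omega : i + (j + 1) = (i + 1) + j)).trans (rho j (i + 1))).trans
      (ro (Cn i) (Cn j))

theorem rho_succ (j i : ℕ) (v : Cn (i + (j + 1))) :
    rho (j + 1) i v = (((rho j (i + 1) (cc (by omega) v)).1 : (Cn i).prod LC.C).1,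
      ((rho j (i + 1) (cc (by omega) v)).2,
        ((rho j (i + 1) (cc (by omega) v)).1 : (Cn i).prod LC.C).2)) := rfl

theorem rho_add (m : ℕ) : ∀ (j i : ℕ) (h : m + (i + j) = (m + i) + j) (v : Cn (m + (i + j))),
    ((CnAdd m i).symm (rho j (m + i) (cc h v)).1).1 = ((CnAdd m (i + j)).symm v).1 ∧
    ((CnAdd m i).symm (rho j (m + i) (cc h v)).1).2 = (rho j i ((CnAdd m (i + j)).symm v).2).1 ∧
    (rho j (m + i) (cc h v)).2 = (rho j i ((CnAdd m (i + j)).symm v).2).2
  | 0, i, h, v => ⟨rfl, rfl, rfl⟩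
  | j + 1, i, h, v => by
    have e0 : i + (j + 1) = (i + 1) + j := by omega
    have e1 : m + (i + (j + 1)) = m + ((i + 1) + j) := by omega
    have e2 : m + ((i + 1) + j) = (m + (i + 1)) + j := by omega
    obtain ⟨h1, h2, h3⟩ := rho_add m j (i + 1) e2 (cc e1 v)
    have e3 : (cc e2 (cc e1 v) : Cn ((m + i + 1) + j)) =
        cc (show m + i + (j + 1) = m + i + 1 + j by omega) (cc h v) := by
      rw [cc_cc, cc_cc]
    have hc := CnAdd_cc m e0 e1 v
    rw [hc] at h1 h2 h3
    have e3' : rho j (m + (i + 1)) (cc e2 (cc e1 v)) = rho j (m + i + 1)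
        (cc (show m + i + (j + 1) = m + i + 1 + j by omega) (cc h v)) :=
      congrArg (rho j (m + i + 1)) e3
    rw [e3'] at h1 h2 h3
    have k1 := rho_succ j (m + i) (cc h v)
    have k2 := rho_succ j i ((CnAdd m (i + (j + 1))).symm v).2
    rw [k1, k2]
    have k3 := CnAdd_symm_succ m i (rho j (m + i + 1)
        (cc (show m + i + (j + 1) = m + i + 1 + j by omega) (cc h v))).1
    rw [k3] at h1 h2
    have h2a : ((CnAdd m i).symm ((rho j (m + i + 1)) (cc (show m + i + (j + 1) = m + i + 1 + j by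
        omega) (cc h v))).1.1).2 = ((rho j (i + 1)) (cc e0
          ((CnAdd m (i + (j + 1))).symm v).2)).1.1 := congrArg Prod.fst h2
    have h2b : ((rho j (m + i + 1)) (cc (show m + i + (j + 1) = m + i + 1 + j by
        omega) (cc h v))).1.2 = ((rho j (i + 1)) (cc e0
          ((CnAdd m (i + (j + 1))).symm v).2)).1.2 := congrArg Prod.snd h2
    exact ⟨h1, h2a, Prod.ext h3 h2b⟩

variable {R : Biv} (o : Orient R)

theorem b_cc (T : Type) [Fintype T] {a b : ℕ} (h : a = b) :
    R.comp (jh R (cc h)) (o.b T b) = o.b T a := by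
  subst h
  exact R.id_comp _

theorem comp_Epow_succ {X K : LC} {S : Type} [Fintype S] (l : X → Pr S 1) (hl : Continuous l)
    (i : ℕ) (x : R.Hom K X) :
    R.comp x (o.Epow l hl (i + 1)) = R.comp (R.comp x (o.Epow l hl i))
      (R.comp (R.tens (o.E l hl) (Cn i)) (jh R (ro X (Cn i)))) := (R.assoc _ _ _).symm

theorem Epow_succ {X : LC} {S : Type} [Fintype S] (l : X → Pr S 1) (hl : Continuous l) (i : ℕ) :
    o.Epow l hl (i + 1) = R.comp (o.Epow l hl i) (R.comp (R.tens (o.E l hl) (Cn i))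
      (jh R (ro X (Cn i)))) := rfl

theorem tens_ro {K L : LC} (x : R.Hom K L) (V : LC) :
    R.comp (R.tens (R.tens x LC.C) V) (jh R (ro L V)) =
      R.comp (jh R (ro K V)) (R.tens x (V.prod LC.C)) := by
  rw [tens_eq_pl x (V.prod LC.C), tens_tens_eq_pl]
  exact (pl_comm x (LC.swap LC.C V) _ _ _ _ (ro K V) (ro L V) (fun _ => rfl) (fun _ => rfl)).symm

theorem tens_point_symm {K L : LC} (x : R.Hom K L) :
    R.comp x (jh R (Homeomorph.prodPUnit L).symm : R.Hom L (L.prod LC.point)) =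
      R.comp (jh R (Homeomorph.prodPUnit K).symm : R.Hom K (K.prod LC.point))
        (R.tens x LC.point) := by
  have h := R.tens_point x
  rw [jh_def, jh_def] at h
  have h1 : x = R.comp (jh R (Homeomorph.prodPUnit K).symm : R.Hom K (K.prod LC.point))
      (R.comp (R.tens x LC.point) (jh R (Homeomorph.prodPUnit L : L.prod LC.point ≃ₜ L))) := by
    rw [h]
    exact (jh_symm_comp R (K := K.prod LC.point) (L := K) (Homeomorph.prodPUnit K) x).symm
  conv_lhs => rw [h1]
  rw [R.assoc, R.assoc]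
  have h2 : R.comp (jh R (Homeomorph.prodPUnit L : L.prod LC.point ≃ₜ L))
      (jh R (Homeomorph.prodPUnit L).symm : R.Hom L (L.prod LC.point)) = R.J (PMap.id _) :=
    jh_comp_symm' R (K := L.prod LC.point) (L := L) (Homeomorph.prodPUnit L)
  rw [h2, R.comp_id]

theorem cap_step {A X : LC} (V : LC) (b1 : R.Hom (A.prod LC.C) X) (b0 : R.Hom A X)
    (E : R.Hom X (X.prod LC.C)) (hE : R.comp b1 E = R.tens b0 LC.C) :
    R.comp (R.tens b1 V) (R.comp (R.tens E V) (jh R (ro X V))) =
      R.comp (jh R (ro A V)) (R.tens b0 (V.prod LC.C)) := by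
  rw [← R.assoc, ← R.tens_comp, hE]
  exact tens_ro b0 V

/-- the iterated cap formula -/
theorem b_Epow (T : Type) [Fintype T] : ∀ (j i : ℕ), i + j < Fintype.card T →
    R.comp (o.b T (i + j)) (o.Epow (X := LC.Pr T 1) (fun P => P) continuous_id j) =
      R.comp (jh R (rho j i)) (R.tens (o.b T i) (Cn j))
  | 0, i, _ => tens_point_symm (o.b T i)
  | j + 1, i, h => by
    have e0 : i + (j + 1) = (i + 1) + j := by omega
    have ih := b_Epow T j (i + 1) (by omega)
    have h1 : o.b T (i + (j + 1)) = R.comp (jh R (cc e0)) (o.b T ((i + 1) + j)) :=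
      (b_cc o T e0).symm
    have h3 : R.comp (R.tens (o.b T (i + 1)) (Cn j)) (R.comp
        (R.tens (o.E (X := LC.Pr T 1) (fun P => P) continuous_id) (Cn j))
        (jh R (ro (LC.Pr T 1) (Cn j)))) =
          R.comp (jh R (ro (Cn i) (Cn j))) (R.tens (o.b T i) ((Cn j).prod LC.C)) :=
      cap_step (A := Cn i) (Cn j) (o.b T (i + 1)) (o.b T i) _ (o.b_cap T i (by omega))
    have h4 : jh R (rho (j + 1) i) = R.comp (R.comp (jh R (cc e0)) (jh R (rho j (i + 1))))
        (jh R (ro (Cn i) (Cn j))) := by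
      rw [← jh_trans, ← jh_trans]
      rfl
    have h5 : R.comp (o.b T (i + (j + 1))) (o.Epow (X := LC.Pr T 1) (fun P => P)
        continuous_id j) = R.comp (R.comp (jh R (cc e0)) (jh R (rho j (i + 1))))
          (R.tens (o.b T (i + 1)) (Cn j)) := by
      rw [h1, R.assoc, ih, R.assoc]
    refine (comp_Epow_succ o (X := LC.Pr T 1) (fun P => P) continuous_id j _).trans ?_
    rw [h5, R.assoc, h3, h4]
    exact (R.assoc _ _ _).symm

theorem b_Epow_zero (T : Type) [Fintype T] {i : ℕ} (hi : i < Fintype.card T) (k : ℕ) :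
    R.comp (o.b T i) (o.Epow (X := LC.Pr T 1) (fun P => P) continuous_id (i + 1 + k)) = 0 := by
  induction k with
  | zero =>
    have h1 := b_Epow o T i 0 (by omega)
    have h3 : o.b T i = R.comp (jh R (cc (show i = 0 + i by omega))) (o.b T (0 + i)) :=
      (b_cc o T _).symm
    have h4 : R.comp (R.tens (o.b T 0) (Cn i)) (R.comp
        (R.tens (o.E (X := LC.Pr T 1) (fun P => P) continuous_id) (Cn i))
        (jh R (ro (LC.Pr T 1) (Cn i)))) = 0 := by
      rw [← R.assoc, ← R.tens_comp, o.b_cap_zero, R.tens_zero, R.zero_comp]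
    have h5 : R.comp (o.b T i) (o.Epow (X := LC.Pr T 1) (fun P => P) continuous_id i) =
        R.comp (R.comp (jh R (cc (show i = 0 + i by omega))) (jh R (rho i 0)))
          (R.tens (o.b T 0) (Cn i)) := by
      conv_lhs => rw [h3]
      rw [R.assoc, h1, R.assoc]
    refine (comp_Epow_succ o (X := LC.Pr T 1) (fun P => P) continuous_id i _).trans ?_
    rw [h5, R.assoc, h4]
    exact R.comp_zero _
  | succ k ih =>
    refine (comp_Epow_succ o (X := LC.Pr T 1) (fun P => P) continuous_id (i + 1 + k) _).trans ?_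
    rw [ih]
    exact R.zero_comp _

/-! ## The operators -/

/-- `(A × B) × Z = A × (B × Z)` -/
abbrev as (A B Z : LC) : (A.prod B).prod Z ≃ₜ A.prod (B.prod Z) := Homeomorph.prodAssoc A B Z

/-- cap with `ε` on the second factor, then apply `s` -/
def SC {P Q V X : LC} (Z : LC) (ε : R.Hom Q (Q.prod V)) (s : R.Hom (P.prod Q) X) :
    R.Hom (P.prod (Q.prod Z)) (X.prod (V.prod Z)) :=
  R.comp (jh R (as P Q Z).symm) (R.comp (R.tens (R.comp (R.ltens P ε)
    (R.comp (jh R (as P Q V).symm) (R.tens s V))) Z) (jh R (as X V Z)))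

/-- the reordering in the core formula -/
def hcore {A B B' V : LC} (Z : LC) (ρ : B ≃ₜ B'.prod V) :
    A.prod (B.prod Z) ≃ₜ (A.prod B').prod (V.prod Z) where
  toFun x := ((x.1, (ρ x.2.1).1), ((ρ x.2.1).2, x.2.2))
  invFun x := (x.1.1, (ρ.symm (x.1.2, x.2.1), x.2.2))
  left_inv x := by
    have h : (((ρ x.2.1).1, (ρ x.2.1).2) : B'.prod V) = ρ x.2.1 := rfl
    simp only [h, ρ.symm_apply_apply]
  right_inv x := by simp only [ρ.apply_symm_apply]
  continuous_toFun := by fun_prop
  continuous_invFun := by fun_prop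

/-- the core formula -/
theorem core {A B B' V P Q X : LC} (Z : LC) (e : R.Hom A P) (b : R.Hom B Q) (b' : R.Hom B' Q)
    (ρ : B ≃ₜ B'.prod V) (ε : R.Hom Q (Q.prod V)) (s : R.Hom (P.prod Q) X)
    (hb : R.comp b ε = R.comp (jh R ρ) (R.tens b' V)) :
    R.comp (R.ltens A (R.tens b Z)) (R.comp (R.tens e (Q.prod Z)) (SC Z ε s)) =
      R.comp (jh R (hcore (A := A) Z ρ)) (R.tens (R.comp (R.tens e B') (R.comp (R.ltens P b') s))
        (V.prod Z)) := by
  -- exchange
  have h1 : R.comp (R.ltens A (R.tens b Z)) (R.tens e (Q.prod Z)) =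
      R.comp (R.tens e (B.prod Z)) (R.ltens P (R.tens b Z)) := (exch' e (R.tens b Z)).symm
  -- `b` passes the associator
  have h2 : R.comp (R.ltens P (R.tens b Z)) (jh R (as P Q Z).symm) =
      R.comp (jh R (as P B Z).symm) (R.tens (R.ltens P b) Z) := by
    rw [tens_eq_pl b Z, ltens_eq_pl b P, ltens_pl, tens_pl, pl_jh, jh_pl]
    exact pl_congr b (Homeomorph.refl _) _ _ _ _ (fun _ => rfl) (fun _ => rfl)
  -- the cap
  have h3 : R.comp (R.tens (R.ltens P b) Z) (R.tens (R.ltens P ε) Z) =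
      R.tens (R.ltens P (R.comp (jh R ρ) (R.tens b' V))) Z := by
    rw [← R.tens_comp, ← ltens_comp, hb]
  have h4 : R.comp (R.tens (R.ltens P (R.comp (jh R ρ) (R.tens b' V))) Z)
      (jh R (((as P Q V).symm.prodCongr (Homeomorph.refl Z) :
        (P.prod (Q.prod V)).prod Z ≃ₜ ((P.prod Q).prod V).prod Z).trans (as (P.prod Q) V Z))) =
      R.comp (jh R ((as P B Z).trans (hcore (A := P) Z ρ))) (R.tens (R.ltens P b') (V.prod Z)) := by
    rw [tens_eq_pl b' V, jh_pl, ltens_pl, tens_pl, pl_jh, ltens_eq_pl, tens_pl, jh_pl]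
    exact pl_congr b' (as P V Z).symm _ _ _ _ (fun _ => rfl) (fun _ => rfl)
  -- `e` passes the reordering
  have h5 : R.comp (R.tens e (B.prod Z)) (jh R (hcore (A := P) Z ρ)) =
      R.comp (jh R (hcore (A := A) Z ρ)) (R.tens (R.tens e B') (V.prod Z)) := by
    rw [tens_eq_pl e (B.prod Z), tens_eq_pl e B', tens_pl]
    exact (pl_comm e ((ρ.prodCongr (Homeomorph.refl Z) : B.prod Z ≃ₜ (B'.prod V).prod Z).trans
      (as B' V Z)) _ _ _ _ _ _ (fun _ => rfl) (fun _ => rfl)).symm
  have h6 : R.comp (R.tens (R.tens s V) Z) (jh R (as X V Z)) =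
      R.comp (jh R (as (P.prod Q) V Z)) (R.tens s (V.prod Z)) := R.tens_tens s V Z
  -- assembly
  have h7 : SC Z ε s = R.comp (jh R (as P Q Z).symm) (R.comp (R.tens (R.ltens P ε) Z)
      (R.comp (jh R (((as P Q V).symm.prodCongr (Homeomorph.refl Z) :
        (P.prod (Q.prod V)).prod Z ≃ₜ ((P.prod Q).prod V).prod Z).trans (as (P.prod Q) V Z)))
        (R.tens s (V.prod Z)))) := by
    have h8 : jh R (((as P Q V).symm.prodCongr (Homeomorph.refl Z) :
        (P.prod (Q.prod V)).prod Z ≃ₜ ((P.prod Q).prod V).prod Z).trans (as (P.prod Q) V Z)) =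
        R.comp (R.tens (jh R (as P Q V).symm) Z) (jh R (as (P.prod Q) V Z)) := by
      rw [tens_jh, ← jh_trans]
    rw [SC, R.tens_comp, R.tens_comp, h8]
    simp only [R.assoc]
    rw [h6]
  rw [h7, ← R.assoc, h1, R.tens_comp, R.tens_comp]
  simp only [R.assoc]
  rw [← R.assoc (R.ltens P (R.tens b Z)), h2]
  simp only [R.assoc]
  rw [← R.assoc (R.tens (R.ltens P b) Z), h3, ← R.assoc (R.tens (R.ltens P (R.comp (jh R ρ) _)) Z),
    h4]
  simp only [R.assoc]
  rw [← R.assoc (jh R (as P B Z).symm), ← jh_trans]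
  have h8 : jh R ((as P B Z).symm.trans ((as P B Z).trans (hcore (A := P) Z ρ))) =
      jh R (hcore (A := P) Z ρ) := jh_congr R fun _ => rfl
  rw [h8, ← R.assoc, h5, R.assoc]

end Pool.Agent.Helper60.StabI
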