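import Pool.Agent.Helper60.StabI.Ind1

/-! Naturality of the powers of the operator of a line bundle. -/

open Topology Filter Set Matrix

noncomputable section

namespace Pool.Agent.Helper60.StabI

open Pool.Agent.Helper1.Stab Pool.Agent.Helper63.Stab

variable {R : Biv} (o : Orient R)

/-- extension of the ambient space of a line bundle -/
theorem E_ext {X : LC} {S T : Type} [Fintype S] [Fintype T] (t : S ↪ T) (l : X → Pr S 1)
    (hl : Continuous l) (hl' : Continuous fun x => Pr.ext t (l x)) :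
    o.E (fun x => Pr.ext t (l x)) hl' = o.E l hl := by
  have h1 : graph (L := LC.Pr T 1) (fun x => Pr.ext t (l x)) hl' =
      (PMap.ltens X (Pr.extM t 1)).comp (graph (L := LC.Pr S 1) l hl) := by
    ext x; rfl
  rw [Orient.E, Orient.E, h1, R.J_comp, R.assoc, ← R.ltens_J_comp, o.u_ext]

theorem Epow_ext {X : LC} {S T : Type} [Fintype S] [Fintype T] (t : S ↪ T) (l : X → Pr S 1)
    (hl : Continuous l) (hl' : Continuous fun x => Pr.ext t (l x)) (j : ℕ) :
    o.Epow (fun x => Pr.ext t (l x)) hl' j = o.Epow l hl j := by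
  induction j with
  | zero => rfl
  | succ j ih => rw [Epow_succ, Epow_succ, ih, E_ext o t l hl hl']

/-- naturality of the powers -/
theorem Epow_nat {X Y : LC} {S : Type} [Fintype S] (φ : R.Hom Y X) {l : X → Pr S 1}
    {m : Y → Pr S 1} (hl : Continuous l) (hm : Continuous m)
    (h : R.comp φ (o.E l hl) = R.comp (o.E m hm) (R.tens φ LC.C)) (j : ℕ) :
    R.comp φ (o.Epow l hl j) = R.comp (o.Epow m hm j) (R.tens φ (Cn j)) := by
  induction j with
  | zero => exact tens_point_symm φ
  | succ j ih =>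
    refine (comp_Epow_succ o l hl j φ).trans ?_
    rw [ih, R.assoc, ← R.assoc (R.tens φ (Cn j)), ← R.tens_comp, h, R.tens_comp, R.assoc,
      tens_ro, ← R.assoc, ← R.assoc]
    refine congrArg (fun t => R.comp t _) ?_
    rw [R.assoc]
    rfl

/-- the operator of a line bundle on the second factor -/
theorem E_snd {A B : LC} {S : Type} [Fintype S] (l : B → Pr S 1) (hl : Continuous l)
    (hl' : Continuous fun x : A.prod B => l x.2) :
    o.E (X := A.prod B) (fun x => l x.2) hl' =
      R.comp (R.ltens A (o.E l hl)) (jh R (as A B LC.C).symm) := by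
  have h1 : R.J (graph (X := A.prod B) (L := LC.Pr S 1) (fun x => l x.2) hl') =
      R.comp (R.J (PMap.ltens A (graph (L := LC.Pr S 1) l hl)))
        (jh R (as A B (LC.Pr S 1)).symm) := by
    rw [jh, ← R.J_comp]
    congr 1
  have h2 : R.comp (jh R (as A B (LC.Pr S 1)).symm) (R.ltens (A.prod B) (o.u S)) =
      R.comp (R.ltens A (R.ltens B (o.u S))) (jh R (as A B LC.C).symm) := by
    rw [ltens_eq_pl (o.u S) (A.prod B), ltens_eq_pl (o.u S) B, ltens_pl, pl_jh, jh_pl]
    exact pl_congr (o.u S) (Homeomorph.refl _) _ _ _ _ (fun _ => rfl) (fun _ => rfl)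
  rw [Orient.E, Orient.E, R.ltens_J_comp, h1, R.assoc, h2, R.assoc]

/-- a morphism on the second factor passes the associator -/
theorem ltens_tens_as {A B B' : LC} (x : R.Hom B B') (V : LC) :
    R.comp (R.ltens A (R.tens x V)) (jh R (as A B' V).symm) =
      R.comp (jh R (as A B V).symm) (R.tens (R.ltens A x) V) := by
  rw [tens_eq_pl x V, ltens_eq_pl x A, ltens_pl, tens_pl, pl_jh, jh_pl]
  exact pl_congr x (Homeomorph.refl _) _ _ _ _ (fun _ => rfl) (fun _ => rfl)

theorem snd_step {A B : LC} (V : LC) (x : R.Hom B (B.prod V)) (e : R.Hom B (B.prod LC.C))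
    (E' : R.Hom (A.prod B) ((A.prod B).prod LC.C))
    (hE : E' = R.comp (R.ltens A e) (jh R (as A B LC.C).symm)) :
    R.comp (R.comp (R.ltens A x) (jh R (as A B V).symm))
      (R.comp (R.tens E' V) (jh R (ro (A.prod B) V))) =
    R.comp (R.ltens A (R.comp x (R.comp (R.tens e V) (jh R (ro B V)))))
      (jh R (as A B (V.prod LC.C)).symm) := by
  rw [hE, ltens_comp, ltens_comp, ltens_jh, R.tens_comp]
  simp only [R.assoc]
  congr 1
  rw [← R.assoc (jh R (as A B V).symm), ← ltens_tens_as]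
  simp only [R.assoc]
  congr 1
  rw [tens_jh, ← jh_trans, ← jh_trans, ← jh_trans]
  exact jh_congr R fun _ => rfl

theorem Epow_snd {A B : LC} {S : Type} [Fintype S] (l : B → Pr S 1) (hl : Continuous l)
    (hl' : Continuous fun x : A.prod B => l x.2) (j : ℕ) :
    o.Epow (X := A.prod B) (fun x => l x.2) hl' j =
      R.comp (R.ltens A (o.Epow l hl j)) (jh R (as A B (Cn j)).symm) := by
  induction j with
  | zero =>
    change jh R (Homeomorph.prodPUnit (A.prod B)).symm = R.comp (R.ltens A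
      (jh R (Homeomorph.prodPUnit B).symm : R.Hom B (B.prod LC.point)))
        (jh R (as A B LC.point).symm)
    rw [ltens_jh, ← jh_trans]
    exact jh_congr R fun _ => rfl
  | succ j ih =>
    refine (Epow_succ o (X := A.prod B) (fun x => l x.2) hl' j).trans ?_
    rw [ih]
    exact snd_step (Cn j) (o.Epow l hl j) (o.E l hl) _ (E_snd o l hl hl')

/-- the cap in a larger projective space -/
theorem Epow_extM {T T₂ : Type} [Fintype T] [Fintype T₂] (t : T ↪ T₂) (j : ℕ) :
    R.comp (R.J (Pr.extM t 1)) (o.Epow (X := LC.Pr T₂ 1) (fun P => P) continuous_id j) =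
      R.comp (o.Epow (X := LC.Pr T 1) (fun P => P) continuous_id j)
        (R.tens (R.J (Pr.extM t 1)) (Cn j)) := by
  have hc : Continuous (fun x : LC.Pr T 1 => Pr.ext t (x : Pr T 1)) := Pr.continuous_ext t
  rw [← Epow_ext o t (X := LC.Pr T 1) (fun P => P) continuous_id hc j]
  refine Epow_nat o _ (X := LC.Pr T₂ 1) (Y := LC.Pr T 1) continuous_id hc ?_ j
  refine o.E_natural (X := LC.Pr T₂ 1) (Y := LC.Pr T 1) (Pr.extM t 1) continuous_id hc ?_
  intro y x h
  exact OnePoint.coe_injective h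

/-- naturality of `SC` -/
theorem SC_nat {P Q Q₂ V X X₂ : LC} (Z : LC) {ε : R.Hom Q (Q.prod V)} {ε₂ : R.Hom Q₂ (Q₂.prod V)}
    {s : R.Hom (P.prod Q) X} {s₂ : R.Hom (P.prod Q₂) X₂} (τ : R.Hom Q Q₂) (ξ : R.Hom X X₂)
    (h1 : R.comp τ ε₂ = R.comp ε (R.tens τ V))
    (h2 : R.comp (R.ltens P τ) s₂ = R.comp s ξ) :
    R.comp (R.ltens P (R.tens τ Z)) (SC Z ε₂ s₂) = R.comp (SC Z ε s) (R.tens ξ (V.prod Z)) := by
  have h3 : R.comp (R.ltens P τ) (R.comp (R.ltens P ε₂)
      (R.comp (jh R (as P Q₂ V).symm) (R.tens s₂ V))) =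
      R.comp (R.comp (R.ltens P ε) (R.comp (jh R (as P Q V).symm) (R.tens s V)))
        (R.tens ξ V) := by
    rw [← R.assoc, ← ltens_comp, h1, ltens_comp, R.assoc, ← R.assoc (R.ltens P (R.tens τ V)),
      ltens_tens_as, R.assoc, ← R.tens_comp, h2, R.tens_comp]
    simp only [R.assoc]
  have h4 : R.comp (R.tens (R.tens ξ V) Z) (jh R (as X₂ V Z)) =
      R.comp (jh R (as X V Z)) (R.tens ξ (V.prod Z)) := R.tens_tens ξ V Z
  rw [SC, SC, ← R.assoc, ltens_tens_as, R.assoc, ← R.assoc (R.tens (R.ltens P τ) Z),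
    ← R.tens_comp, h3, R.tens_comp]
  simp only [R.assoc]
  rw [h4]

end Pool.Agent.Helper60.StabI
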